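import Pool.Agent.R3M.Stmts

/-!
# R3M, module KZT: rainbow common independent sets of size q in 2q - 1 of them

The augmenting path is found greedily: `z r` is chosen for the set of elements of `I` which have
an `N`-arc to an earlier `z p`; every element of `I` belongs to the first index with an `N`-arc,
and every `z r` has as predecessor the element with the smallest index. Then both exchanges are
triangular, without any shortest path argument.
-/

set_option autoImplicit false

namespace Pool.Agent.R3M.H62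

open Pool.Agent.R3M

variable {α : Type} [DecidableEq α]

/-- Greedy sequence. -/
theorem greedy (hg : KzgStmt) (M N : Mat α) (s q : ℕ) (I : Finset α) (G : ℕ → Finset α)
    (hI : CI M N s I) (hG : ∀ r, CI M N q (G r)) (hs : s < q) :
    ∃ z : ℕ → α, ∀ r, z r ∈ G r ∧ z r ∉ I ∧
      (M.Ind (insert (z r) I) ∨
        ∃ f ∈ I, (∃ p, p < r ∧ Arc N I f (z p)) ∧ Arc M I f (z r)) ∧
      (N.Ind (insert (z r) I) ∨
        ∃ f ∈ I, (∀ p, p < r → ¬ Arc N I f (z p)) ∧ Arc N I f (z r)) := by
  classical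
  have key : ∀ (V : Finset α) (r : ℕ), ∃ z, V ⊆ I → (z ∈ G r ∧ z ∉ I ∧
      (M.Ind (insert z I) ∨ ∃ f ∈ V, Arc M I f z) ∧
      (N.Ind (insert z I) ∨ ∃ f ∈ I, f ∉ V ∧ Arc N I f z)) := by
    intro V r
    by_cases hV : V ⊆ I
    · obtain ⟨z, h1, h2, h3, h4⟩ := hg α M N s q I V (G r) hI (hG r) hs hV
      exact ⟨z, fun _ => ⟨h1, h2, h3, h4⟩⟩
    · have : 0 < (G r).card := by rw [(hG r).2.2]; omega
      obtain ⟨z, _⟩ := Finset.card_pos.mp this
      exact ⟨z, fun h => absurd h hV⟩
  choose c hc using key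
  let W : ℕ → Finset α := fun r =>
    Nat.rec (∅ : Finset α) (fun r V => V ∪ I.filter (fun f => Arc N I f (c V r))) r
  have hW0 : W 0 = ∅ := rfl
  have hW1 : ∀ r, W (r + 1) = W r ∪ I.filter (fun f => Arc N I f (c (W r) r)) := fun r => rfl
  have hW : ∀ r f, f ∈ W r ↔ f ∈ I ∧ ∃ p, p < r ∧ Arc N I f (c (W p) p) := by
    intro r
    induction r with
    | zero => intro f; simp [hW0]
    | succ r ih =>
      intro f
      rw [hW1, Finset.mem_union, ih, Finset.mem_filter]
      constructor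
      · rintro (⟨h1, p, h2, h3⟩ | ⟨h1, h2⟩)
        · exact ⟨h1, p, by omega, h3⟩
        · exact ⟨h1, r, by omega, h2⟩
      · rintro ⟨h1, p, h2, h3⟩
        rcases Nat.lt_succ_iff_lt_or_eq.mp h2 with h4 | h4
        · exact Or.inl ⟨h1, p, h4, h3⟩
        · subst h4; exact Or.inr ⟨h1, h3⟩
  refine ⟨fun r => c (W r) r, fun r => ?_⟩
  have hsub : W r ⊆ I := fun f hf => ((hW r f).mp hf).1
  obtain ⟨h1, h2, h3, h4⟩ := hc (W r) r hsub
  refine ⟨h1, h2, ?_, ?_⟩
  · rcases h3 with h3 | ⟨f, hf, h3⟩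
    · exact Or.inl h3
    · exact Or.inr ⟨f, hsub hf, ((hW r f).mp hf).2, h3⟩
  · rcases h4 with h4 | ⟨f, hf, hf', h4⟩
    · exact Or.inl h4
    · exact Or.inr ⟨f, hf, fun p hp ha => hf' ((hW r f).mpr ⟨hf, p, hp, ha⟩), h4⟩

/-- The first `N`-free element comes at an index at most `|I|`. -/
theorem first_free (N : Mat α) (s : ℕ) (I : Finset α) (z : ℕ → α) (hI : I.card = s)
    (h : ∀ r, N.Ind (insert (z r) I) ∨
      ∃ f ∈ I, (∀ p, p < r → ¬ Arc N I f (z p)) ∧ Arc N I f (z r)) :
    ∃ t, t ≤ s ∧ N.Ind (insert (z t) I) ∧ ∀ r, r < t → ¬ N.Ind (insert (z r) I) := by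
  classical
  have h1 : ∃ t, t ≤ s ∧ N.Ind (insert (z t) I) := by
    by_contra hcon
    push Not at hcon
    have h2 : ∀ r, ∃ f, r ≤ s →
        f ∈ I ∧ (∀ p, p < r → ¬ Arc N I f (z p)) ∧ Arc N I f (z r) := by
      intro r
      by_cases hr : r ≤ s
      · rcases h r with h3 | ⟨f, h3, h4, h5⟩
        · exact absurd h3 (hcon r hr)
        · exact ⟨f, fun _ => ⟨h3, h4, h5⟩⟩
      · exact ⟨z 0, fun h => absurd h hr⟩
    choose f hf using h2
    have h3 : (Finset.range (s + 1)).card ≤ I.card := by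
      apply Finset.card_le_card_of_injOn f
      · intro r hr
        have hr1 : r < s + 1 := by simpa using hr
        exact (hf r (by omega)).1
      · intro r hr r' hr' he
        have hr1 : r < s + 1 := by simpa using hr
        have hr2 : r' < s + 1 := by simpa using hr'
        by_contra hne
        rcases Nat.lt_or_gt_of_ne hne with h4 | h4
        · exact (hf r' (by omega)).2.1 r h4 (he ▸ (hf r (by omega)).2.2)
        · exact (hf r (by omega)).2.1 r' h4 (he ▸ (hf r' (by omega)).2.2)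
    rw [Finset.card_range] at h3
    omega
  have h2 : ∃ t, N.Ind (insert (z t) I) := by
    obtain ⟨t, _, h3⟩ := h1
    exact ⟨t, h3⟩
  obtain ⟨t, h3, h4⟩ := h1
  exact ⟨Nat.find h2, le_trans (Nat.find_min' h2 h4) h3, Nat.find_spec h2,
    fun r hr => Nat.find_min h2 hr⟩

/-- `a` is the first index with an `N`-arc from `f`. -/
def FirstArc (N : Mat α) (I : Finset α) (z : ℕ → α) (f : α) (a : ℕ) : Prop :=
  Arc N I f (z a) ∧ ∀ p, p < a → ¬ Arc N I f (z p)

theorem chain (M N : Mat α) (I : Finset α) (z : ℕ → α)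
    (h : ∀ r, M.Ind (insert (z r) I) ∨
      ∃ f ∈ I, (∃ p, p < r ∧ Arc N I f (z p)) ∧ Arc M I f (z r)) :
    ∀ r : ℕ, ∃ (K L : List (ℕ × α)) (b : ℕ),
      (∀ p ∈ K, p.1 < r ∧ p.2 ∈ I ∧ FirstArc N I z p.2 p.1) ∧
      K.Pairwise (fun p q => q.1 < p.1) ∧
      (∀ p ∈ L, p.1 ≤ r ∧ p.2 ∈ I ∧ (∃ a, a < p.1 ∧ FirstArc N I z p.2 a) ∧
        Arc M I p.2 (z p.1) ∧ ¬ M.Ind (insert (z p.1) I)) ∧
      L.Pairwise (fun p q => p.1 < q.1 ∧ ¬ Arc M I p.2 (z q.1)) ∧
      (L.map Prod.snd).toFinset = (K.map Prod.snd).toFinset ∧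
      insert b (L.map Prod.fst).toFinset = insert r (K.map Prod.fst).toFinset ∧
      b ≤ r ∧ M.Ind (insert (z b) I) := by
  classical
  intro r
  induction r using Nat.strong_induction_on with
  | _ r ih =>
    by_cases hr : M.Ind (insert (z r) I)
    · exact ⟨[], [], r, by simp, by simp, by simp, by simp, by simp, by simp, le_refl _, hr⟩
    · have hex : ∃ p, ∃ f ∈ I, Arc M I f (z r) ∧ Arc N I f (z p) := by
        rcases h r with h1 | ⟨f, h1, ⟨p, _, h2⟩, h3⟩
        · exact absurd h1 hr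
        · exact ⟨p, f, h1, h3, h2⟩
      obtain ⟨f, hf, hfM, hfN⟩ := Nat.find_spec hex
      have hmin : ∀ p, p < Nat.find hex → ∀ f ∈ I, Arc N I f (z p) → ¬ Arc M I f (z r) :=
        fun p hp f hf h1 h2 => Nat.find_min hex hp ⟨f, hf, h2, h1⟩
      have hlt : Nat.find hex < r := by
        rcases h r with h1 | ⟨f, h1, ⟨p, h0, h2⟩, h3⟩
        · exact absurd h1 hr
        · exact lt_of_le_of_lt (Nat.find_min' hex ⟨f, h1, h3, h2⟩) h0
      generalize Nat.find hex = a at hfN hmin hlt
      obtain ⟨K, L, b, h1, h2, h3, h4, h5, h6, h7, h8⟩ := ih a hlt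
      refine ⟨(a, f) :: K, L ++ [(r, f)], b, ?_, ?_, ?_, ?_, ?_, ?_, ?_, h8⟩
      · intro p hp
        rcases List.mem_cons.mp hp with h9 | h9
        · subst h9
          exact ⟨hlt, hf, hfN, fun p hp h10 => hmin p hp f hf h10 hfM⟩
        · exact ⟨lt_trans (h1 p h9).1 hlt, (h1 p h9).2⟩
      · exact List.pairwise_cons.mpr ⟨fun p hp => (h1 p hp).1, h2⟩
      · intro p hp
        rcases List.mem_append.mp hp with h9 | h9
        · exact ⟨le_trans (h3 p h9).1 hlt.le, (h3 p h9).2⟩
        · rw [List.mem_singleton] at h9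
          subst h9
          exact ⟨le_refl _, hf, ⟨a, hlt, hfN, fun p hp h10 => hmin p hp f hf h10 hfM⟩, hfM, hr⟩
      · refine List.pairwise_append.mpr ⟨h4, List.pairwise_singleton _ _, ?_⟩
        intro p hp p' hp'
        rw [List.mem_singleton] at hp'
        subst hp'
        obtain ⟨h9, h10, ⟨a', h11, h12⟩, _⟩ := h3 p hp
        exact ⟨lt_of_le_of_lt h9 hlt, hmin a' (lt_of_lt_of_le h11 h9) p.2 h10 h12.1⟩
      · rw [List.map_append, List.toFinset_append, h5]
        ext x
        simp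
      · rw [List.map_append, List.toFinset_append, ← Finset.insert_union, h6]
        ext x
        simp
        tauto
      · exact le_trans h7 hlt.le

theorem augment (ha : KzaStmt) (M N : Mat α) (I : Finset α) (z : ℕ → α) (t : ℕ)
    (hz : ∀ r, z r ∉ I)
    (h : ∀ r, M.Ind (insert (z r) I) ∨
      ∃ f ∈ I, (∃ p, p < r ∧ Arc N I f (z p)) ∧ Arc M I f (z r))
    (ht : N.Ind (insert (z t) I)) (ht' : ∀ r, r < t → ¬ N.Ind (insert (z r) I)) :
    ∃ (A : Finset ℕ) (D : Finset α), (∀ a ∈ A, a ≤ t) ∧ D ⊆ I ∧ A.card = D.card + 1 ∧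
      Set.InjOn z (A : Set ℕ) ∧ M.Ind ((I \ D) ∪ A.image z) ∧ N.Ind ((I \ D) ∪ A.image z) := by
  classical
  obtain ⟨K, L, b, h1, h2, h3, h4, h5, h6, h7, h8⟩ := chain M N I z h t
  have hKsnd : (K.map Prod.snd).Nodup := by
    rw [List.Nodup, List.pairwise_map]
    refine h2.imp_of_mem ?_
    intro p q hp hq hpq heq
    exact (h1 p hp).2.2.2 q.1 hpq (heq ▸ (h1 q hq).2.2.1)
  have hinj : ∀ a ∈ insert t (K.map Prod.fst).toFinset, ∀ a' ∈ insert t (K.map Prod.fst).toFinset,
      a < a' → z a ≠ z a' := by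
    intro a haA a' ha' hlt heq
    rcases Finset.mem_insert.mp ha' with h9 | h9
    · subst h9
      exact ht' a hlt (heq ▸ ht)
    · rw [List.mem_toFinset, List.mem_map] at h9
      obtain ⟨p, hp, hp'⟩ := h9
      subst hp'
      exact (h1 p hp).2.2.2 a hlt (heq ▸ (h1 p hp).2.2.1)
  have hinj' : Set.InjOn z ((insert t (K.map Prod.fst).toFinset : Finset ℕ) : Set ℕ) := by
    intro a haA a' ha' heq
    by_contra hne
    rcases Nat.lt_or_gt_of_ne hne with h9 | h9
    · exact hinj a haA a' ha' h9 heq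
    · exact hinj a' ha' a haA h9 heq.symm
  have hKfst : (K.map Prod.fst).Nodup := by
    rw [List.Nodup, List.pairwise_map]
    exact h2.imp (fun h => (ne_of_lt h).symm)
  have htK : t ∉ (K.map Prod.fst).toFinset := by
    intro h9
    rw [List.mem_toFinset, List.mem_map] at h9
    obtain ⟨p, hp, hp'⟩ := h9
    exact absurd (h1 p hp).1 (by omega)
  have hKA : ∀ p ∈ K, p.1 ∈ insert t (K.map Prod.fst).toFinset := by
    intro p hp
    exact Finset.mem_insert_of_mem (List.mem_toFinset.mpr (List.mem_map.mpr ⟨p, hp, rfl⟩))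
  have hLA : ∀ p ∈ L, p.1 ∈ insert t (K.map Prod.fst).toFinset := by
    intro p hp
    rw [← h6]
    exact Finset.mem_insert_of_mem (List.mem_toFinset.mpr (List.mem_map.mpr ⟨p, hp, rfl⟩))
  refine ⟨insert t (K.map Prod.fst).toFinset, (K.map Prod.snd).toFinset, ?_, ?_, ?_, hinj',
    ?_, ?_⟩
  · intro a haA
    rcases Finset.mem_insert.mp haA with h9 | h9
    · exact h9.le
    · rw [List.mem_toFinset, List.mem_map] at h9
      obtain ⟨p, hp, hp'⟩ := h9
      exact hp' ▸ (h1 p hp).1.le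
  · intro f hf
    rw [List.mem_toFinset, List.mem_map] at hf
    obtain ⟨p, hp, hp'⟩ := hf
    exact hp' ▸ (h1 p hp).2.1
  · rw [Finset.card_insert_of_notMem htK, List.toFinset_card_of_nodup hKfst,
      List.toFinset_card_of_nodup hKsnd, List.length_map, List.length_map]
  · have h9 := ha α M I (z b) (L.map (fun p => (z p.1, p.2))) (hz b) h8 ?_ ?_ ?_ ?_
    · rw [List.map_map, List.map_map] at h9
      have e1 : L.map (Prod.snd ∘ fun p : ℕ × α => (z p.1, p.2)) = L.map Prod.snd := rfl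
      have e2 : L.map (Prod.fst ∘ fun p : ℕ × α => (z p.1, p.2)) = (L.map Prod.fst).map z := by
        rw [List.map_map]
        rfl
      rw [e1, e2, h5] at h9
      have e3 : insert (z b) ((L.map Prod.fst).map z).toFinset =
          (insert t (K.map Prod.fst).toFinset).image z := by
        rw [← h6]
        ext x
        simp [eq_comm]
      rw [e3] at h9
      exact h9
    · intro p hp
      rw [List.mem_map] at hp
      obtain ⟨p', hp', rfl⟩ := hp
      obtain ⟨_, h10, _, h11, h12⟩ := h3 p' hp'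
      refine ⟨hz _, ?_, h10, h12, h11⟩
      intro heq
      have heq' : z p'.1 = z b := heq
      rw [heq'] at h12
      exact h12 h8
    · rw [List.map_map, List.Nodup, List.pairwise_map]
      refine h4.imp_of_mem ?_
      intro p q hp hq hpq heq
      exact hinj p.1 (hLA p hp) q.1 (hLA q hq) hpq.1 heq
    · rw [List.map_map, List.Nodup, List.pairwise_map]
      refine h4.imp_of_mem ?_
      intro p q hp hq hpq heq
      have heq' : p.2 = q.2 := heq
      exact hpq.2 (heq' ▸ (h3 q hq).2.2.2.1)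
    · rw [List.pairwise_map]
      exact h4.imp (fun h => h.2)
  · have h9 := ha α N I (z t) (K.map (fun p => (z p.1, p.2))) (hz t) ht ?_ ?_ ?_ ?_
    · rw [List.map_map, List.map_map] at h9
      have e1 : K.map (Prod.snd ∘ fun p : ℕ × α => (z p.1, p.2)) = K.map Prod.snd := rfl
      have e2 : K.map (Prod.fst ∘ fun p : ℕ × α => (z p.1, p.2)) = (K.map Prod.fst).map z := by
        rw [List.map_map]
        rfl
      rw [e1, e2] at h9
      have e3 : insert (z t) ((K.map Prod.fst).map z).toFinset =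
          (insert t (K.map Prod.fst).toFinset).image z := by
        ext x
        simp [eq_comm]
      rw [e3] at h9
      exact h9
    · intro p hp
      rw [List.mem_map] at hp
      obtain ⟨p', hp', rfl⟩ := hp
      obtain ⟨h10, h11, h12⟩ := h1 p' hp'
      refine ⟨hz _, ?_, h11, ht' _ h10, h12.1⟩
      intro heq
      have heq' : z p'.1 = z t := heq
      have h13 := ht' _ h10
      rw [heq'] at h13
      exact h13 ht
    · rw [List.map_map, List.Nodup, List.pairwise_map]
      refine h2.imp_of_mem ?_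
      intro p q hp hq hpq heq
      exact hinj q.1 (hKA q hq) p.1 (hKA p hp) hpq heq.symm
    · rw [List.map_map]
      exact hKsnd
    · rw [List.pairwise_map]
      refine h2.imp_of_mem ?_
      intro p q hp hq hpq
      exact (h1 p hp).2.2.2 q.1 hpq

theorem step (hg : KzgStmt) (ha : KzaStmt) (M N : Mat α) (q m : ℕ) (F : Fin m → Finset α)
    (hF : ∀ i, CI M N q (F i)) (hm : 2 * q ≤ m + 1) (s : ℕ) (hs : s < q)
    (J : Finset (Fin m)) (x : Fin m → α) (hJ : J.card = s)
    (hx : Set.InjOn x (J : Set (Fin m))) (hxF : ∀ i ∈ J, x i ∈ F i)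
    (hM : M.Ind (J.image x)) (hN : N.Ind (J.image x)) :
    ∃ (J : Finset (Fin m)) (x : Fin m → α), J.card = s + 1 ∧ Set.InjOn x (J : Set (Fin m)) ∧
      (∀ i ∈ J, x i ∈ F i) ∧ M.Ind (J.image x) ∧ N.Ind (J.image x) := by
  classical
  have hIc : (J.image x).card = s := by rw [Finset.card_image_of_injOn hx, hJ]
  -- unused indices
  have hU : s + 1 ≤ (Jᶜ : Finset (Fin m)).card := by
    rw [Finset.card_compl, Fintype.card_fin, hJ]
    omega
  obtain ⟨em⟩ : Nonempty (Fin (s + 1) ↪ (Jᶜ : Finset (Fin m))) := by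
    apply Function.Embedding.nonempty_of_card_le
    rw [Fintype.card_fin, Fintype.card_coe]
    exact hU
  obtain ⟨j, hjU, hjinj⟩ : ∃ j : ℕ → Fin m, (∀ r, j r ∉ J) ∧
      ∀ r r', r ≤ s → r' ≤ s → j r = j r' → r = r' := by
    refine ⟨fun r => if h : r < s + 1 then ((em ⟨r, h⟩ : (Jᶜ : Finset (Fin m))) : Fin m)
      else ((em ⟨0, by omega⟩ : (Jᶜ : Finset (Fin m))) : Fin m), ?_, ?_⟩
    · intro r
      by_cases h : r < s + 1
      · simp only [dif_pos h]
        exact Finset.mem_compl.mp (em ⟨r, h⟩).2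
      · simp only [dif_neg h]
        exact Finset.mem_compl.mp (em ⟨0, by omega⟩).2
    · intro r r' hr hr' heq
      have h1 : r < s + 1 := by omega
      have h2 : r' < s + 1 := by omega
      simp only [dif_pos h1, dif_pos h2] at heq
      have h3 := em.injective (Subtype.ext heq)
      exact congrArg Fin.val h3
  obtain ⟨z, hz⟩ := greedy hg M N s q (J.image x) (fun r => F (j r)) ⟨hM, hN, hIc⟩
    (fun r => hF (j r)) hs
  obtain ⟨t, hts, ht1, ht2⟩ := first_free N s (J.image x) z hIc (fun r => (hz r).2.2.2)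
  obtain ⟨A, D, hA, hD, hAD, hzA, hMA, hNA⟩ := augment ha M N (J.image x) z t
    (fun r => (hz r).2.1) (fun r => (hz r).2.2.1) ht1 ht2
  have hAs : ∀ a ∈ A, a ≤ s := fun a haA => le_trans (hA a haA) hts
  have hjA : Set.InjOn j (A : Set ℕ) := fun a h1 a' h2 h3 =>
    hjinj a a' (hAs a h1) (hAs a' h2) h3
  let y : Fin m → α := fun i => if h : ∃ a ∈ A, j a = i then z h.choose else x i
  have hy1 : ∀ a ∈ A, y (j a) = z a := by
    intro a haA
    have h : ∃ a' ∈ A, j a' = j a := ⟨a, haA, rfl⟩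
    have h1 : h.choose = a := hjA h.choose_spec.1 haA h.choose_spec.2
    simp only [y, dif_pos h, h1]
  have hy2 : ∀ i ∈ J, y i = x i := by
    intro i hi
    have h : ¬ ∃ a ∈ A, j a = i := by
      rintro ⟨a, _, h2⟩
      exact hjU a (h2 ▸ hi)
    simp only [y, dif_neg h]
  have himg : ((J.filter (fun i => x i ∉ D)) ∪ A.image j).image y =
      (J.image x \ D) ∪ A.image z := by
    ext v
    simp only [Finset.mem_image, Finset.mem_union, Finset.mem_filter, Finset.mem_sdiff]
    constructor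
    · rintro ⟨i, (⟨h1, h2⟩ | ⟨a, h1, h2⟩), h3⟩
      · rw [hy2 i h1] at h3
        exact Or.inl ⟨⟨i, h1, h3⟩, h3 ▸ h2⟩
      · rw [← h2, hy1 a h1] at h3
        exact Or.inr ⟨a, h1, h3⟩
    · rintro (⟨⟨i, h1, h2⟩, h3⟩ | ⟨a, h1, h2⟩)
      · exact ⟨i, Or.inl ⟨h1, h2 ▸ h3⟩, (hy2 i h1).trans h2⟩
      · exact ⟨j a, Or.inr ⟨a, h1, rfl⟩, (hy1 a h1).trans h2⟩
  have hcardD : (J.filter (fun i => x i ∈ D)).card = D.card := by
    have h1 : (J.filter (fun i => x i ∈ D)).image x = D := by
      ext v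
      simp only [Finset.mem_image, Finset.mem_filter]
      constructor
      · rintro ⟨i, ⟨_, h2⟩, h3⟩
        exact h3 ▸ h2
      · intro hv
        obtain ⟨i, h2, h3⟩ := Finset.mem_image.mp (hD hv)
        exact ⟨i, ⟨h2, h3 ▸ hv⟩, h3⟩
    have h2 : ((J.filter (fun i => x i ∈ D)).image x).card =
        (J.filter (fun i => x i ∈ D)).card := Finset.card_image_of_injOn
      (hx.mono (fun i hi => (Finset.mem_filter.mp hi).1))
    rw [← h2, h1]
  have hcardF : (J.filter (fun i => x i ∉ D)).card + D.card = s := by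
    rw [← hcardD, ← hJ, add_comm]
    exact Finset.card_filter_add_card_filter_not (s := J) (fun i => x i ∈ D)
  have hdisj : Disjoint (J.filter (fun i => x i ∉ D)) (A.image j) := by
    rw [Finset.disjoint_left]
    intro i hi hi'
    obtain ⟨a, _, h2⟩ := Finset.mem_image.mp hi'
    exact hjU a (h2 ▸ (Finset.mem_filter.mp hi).1)
  have hcard : ((J.filter (fun i => x i ∉ D)) ∪ A.image j).card = s + 1 := by
    rw [Finset.card_union_of_disjoint hdisj, Finset.card_image_of_injOn hjA, hAD]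
    omega
  refine ⟨(J.filter (fun i => x i ∉ D)) ∪ A.image j, y, hcard, ?_, ?_, ?_, ?_⟩
  · intro i hi i' hi' heq
    have hi0 := Finset.mem_union.mp (Finset.mem_coe.mp hi)
    have hi0' := Finset.mem_union.mp (Finset.mem_coe.mp hi')
    rcases hi0 with h1 | h1 <;> rcases hi0' with h2 | h2
    · have h3 := (Finset.mem_filter.mp h1).1
      have h4 := (Finset.mem_filter.mp h2).1
      rw [hy2 i h3, hy2 i' h4] at heq
      exact hx h3 h4 heq
    · have h3 := (Finset.mem_filter.mp h1).1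
      obtain ⟨a, h4, h5⟩ := Finset.mem_image.mp h2
      rw [hy2 i h3, ← h5, hy1 a h4] at heq
      exact absurd (Finset.mem_image.mpr ⟨i, h3, heq⟩) (hz a).2.1
    · have h3 := (Finset.mem_filter.mp h2).1
      obtain ⟨a, h4, h5⟩ := Finset.mem_image.mp h1
      rw [hy2 i' h3, ← h5, hy1 a h4] at heq
      exact absurd (Finset.mem_image.mpr ⟨i', h3, heq.symm⟩) (hz a).2.1
    · obtain ⟨a, h4, h5⟩ := Finset.mem_image.mp h1
      obtain ⟨a', h4', h5'⟩ := Finset.mem_image.mp h2
      rw [← h5, ← h5', hy1 a h4, hy1 a' h4'] at heq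
      rw [← h5, ← h5', hzA h4 h4' heq]
  · intro i hi
    rcases Finset.mem_union.mp hi with h1 | h1
    · have h3 := (Finset.mem_filter.mp h1).1
      rw [hy2 i h3]
      exact hxF i h3
    · obtain ⟨a, h4, h5⟩ := Finset.mem_image.mp h1
      rw [← h5, hy1 a h4]
      exact (hz a).1
  · rw [himg]
    exact hMA
  · rw [himg]
    exact hNA

/-- `KztStmt` for `0 < q`. -/
theorem kzt_pos (hg : KzgStmt) (ha : KzaStmt) (M N : Mat α) (q m : ℕ)
    (F : Fin m → Finset α) (hq : 0 < q) (hF : ∀ i, CI M N q (F i)) (hm : 2 * q ≤ m + 1) :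
    ∃ (J : Finset (Fin m)) (x : Fin m → α), J.card = q ∧ Set.InjOn x (J : Set (Fin m)) ∧
      (∀ i ∈ J, x i ∈ F i) ∧ M.Ind (J.image x) ∧ N.Ind (J.image x) := by
  have main : ∀ s, s ≤ q → ∃ (J : Finset (Fin m)) (x : Fin m → α), J.card = s ∧
      Set.InjOn x (J : Set (Fin m)) ∧ (∀ i ∈ J, x i ∈ F i) ∧ M.Ind (J.image x) ∧
      N.Ind (J.image x) := by
    intro s
    induction s with
    | zero =>
      intro _
      have h0 : 0 < m := by omega
      have h1 : 0 < (F ⟨0, h0⟩).card := by rw [(hF ⟨0, h0⟩).2.2]; exact hq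
      obtain ⟨v, _⟩ := Finset.card_pos.mp h1
      refine ⟨∅, fun _ => v, rfl, ?_, ?_, ?_, ?_⟩
      · intro i hi
        exact absurd hi (by simp)
      · intro i hi
        exact absurd hi (by simp)
      · simpa using M.emp
      · simpa using N.emp
    | succ s ih =>
      intro hs
      obtain ⟨J, x, h1, h2, h3, h4, h5⟩ := ih (by omega)
      exact step hg ha M N q m F hF hm s (by omega) J x h1 h2 h3 h4 h5
  exact main q (le_refl q)

end Pool.Agent.R3M.H62
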